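import Pool.Agent.Helper12.ET.Spec

/-! ET (helper12), part `FIN`: a basis of order `2 k` is not a finite union of sets with few
`k`-fold differences. -/

set_option autoImplicit false

namespace Pool.Agent.Helper81.ET.FIN

open Pool.Agent.Helper12.ET

/-- A crude power mean inequality. -/
lemma pm {ι : Type} (s : Finset ι) (f : ι → ℝ) (hf : ∀ i ∈ s, 0 ≤ f i) (r : ℕ) (hr : 1 ≤ r) :
    (∑ i ∈ s, f i) ^ r ≤ (s.card : ℝ) ^ r * ∑ i ∈ s, f i ^ r := by
  rcases s.eq_empty_or_nonempty with rfl | hs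
  · simp [show r ≠ 0 by omega]
  · obtain ⟨i0, hi0, hmax⟩ := s.exists_max_image f hs
    have h1 : ∑ i ∈ s, f i ≤ s.card * f i0 := by
      calc ∑ i ∈ s, f i ≤ ∑ _i ∈ s, f i0 := Finset.sum_le_sum fun i hi => hmax i hi
        _ = s.card * f i0 := by simp
    calc (∑ i ∈ s, f i) ^ r ≤ (s.card * f i0) ^ r :=
          pow_le_pow_left₀ (Finset.sum_nonneg hf) h1 r
      _ = (s.card : ℝ) ^ r * f i0 ^ r := mul_pow _ _ _
      _ ≤ (s.card : ℝ) ^ r * ∑ i ∈ s, f i ^ r := by
          refine mul_le_mul_of_nonneg_left ?_ (by positivity)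
          exact Finset.single_le_sum (f := fun i => f i ^ r)
            (fun i hi => pow_nonneg (hf i hi) r) hi0

lemma ncard_inter (A : Set ℕ) (I : Finset ℕ) [DecidablePred (· ∈ A)] :
    (A ∩ (I : Set ℕ)).ncard = (I.filter (· ∈ A)).card := by
  rw [← Set.ncard_coe_finset]
  congr 1
  ext x
  simp [and_comm]

lemma ncard_le_sum {m : ℕ} (A : Set ℕ) (B : Fin m → Set ℕ) (h : A ⊆ ⋃ i, B i) (I : Finset ℕ) :
    (A ∩ (I : Set ℕ)).ncard ≤ ∑ i, (B i ∩ (I : Set ℕ)).ncard := by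
  classical
  simp only [ncard_inter]
  refine le_trans (Finset.card_le_card ?_) (Finset.card_biUnion_le)
  intro x hx
  rw [Finset.mem_filter] at hx
  obtain ⟨i, hi⟩ := Set.mem_iUnion.1 (h hx.2)
  rw [Finset.mem_biUnion]
  exact ⟨i, Finset.mem_univ _, Finset.mem_filter.2 ⟨hx.1, hi⟩⟩

lemma few_mono {g k : ℕ} {B B' : Set ℕ} (h : B' ⊆ B) (hB : FewDiff g k B) : FewDiff g k B' := by
  intro d
  refine le_trans (Set.encard_le_encard ?_) (hB d)
  rintro p ⟨h1, h2, h3, h4⟩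
  exact ⟨fun i => h (h1 i), fun i => h (h2 i), h3, h4⟩

/-- the number of elements of `A` below `2 ^ J` -/
noncomputable def cnt (A : Set ℕ) (J : ℕ) : ℕ := (A ∩ (Finset.range (2 ^ J) : Set ℕ)).ncard

lemma cnt_succ (A : Set ℕ) (J : ℕ) : cnt A (J + 1) ≤ cnt A J + nb A J := by
  unfold cnt nb
  refine le_trans (Set.ncard_le_ncard ?_ ?_) (Set.ncard_union_le _ _)
  · rintro x ⟨hx, hx'⟩
    rw [Finset.mem_coe, Finset.mem_range] at hx'
    by_cases h : x < 2 ^ J
    · exact Or.inl ⟨hx, by rw [Finset.mem_coe, Finset.mem_range]; exact h⟩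
    · exact Or.inr ⟨hx, not_lt.1 h, hx'⟩
  · exact ((Finset.finite_toSet _).inter_of_right A).union ((Set.finite_Ico _ _).inter_of_right A)

lemma cnt_add (A : Set ℕ) (J q : ℕ) :
    (cnt A (J + q) : ℝ) ≤ cnt A J + ∑ j ∈ Finset.Ico J (J + q), (nb A j : ℝ) := by
  induction q with
  | zero => simp
  | succ q ih =>
    rw [← add_assoc, Finset.sum_Ico_succ_top (Nat.le_add_right J q)]
    have h := cnt_succ A (J + q)
    have h' : (cnt A (J + q + 1) : ℝ) ≤ cnt A (J + q) + nb A (J + q) := by exact_mod_cast h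
    linarith

lemma cnt_low {k n0 : ℕ} {A : Set ℕ}
    (hA : ∀ n, n0 ≤ n → ∃ u : Fin (2 * k) → ℕ, (∀ i, u i ∈ A) ∧ ∑ i, u i = n) (J : ℕ) :
    (2 : ℝ) ^ J - n0 ≤ (cnt A J : ℝ) ^ (2 * k) := by
  classical
  have h1 : (Finset.Ico n0 (2 ^ J)).card ≤ (cnt A J) ^ (2 * k) := by
    unfold cnt
    rw [ncard_inter]
    set F := (Finset.range (2 ^ J)).filter (· ∈ A) with hF
    have h2 : Finset.Ico n0 (2 ^ J) ⊆
        (Fintype.piFinset (fun _ : Fin (2 * k) => F)).image fun u => ∑ i, u i := by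
      intro n hn
      rw [Finset.mem_Ico] at hn
      obtain ⟨u, hu, hs⟩ := hA n hn.1
      refine Finset.mem_image.2 ⟨u, ?_, hs⟩
      rw [Fintype.mem_piFinset]
      intro i
      rw [hF, Finset.mem_filter, Finset.mem_range]
      refine ⟨lt_of_le_of_lt ?_ hn.2, hu i⟩
      rw [← hs]
      exact Finset.single_le_sum (fun _ _ => Nat.zero_le _) (Finset.mem_univ i)
    calc (Finset.Ico n0 (2 ^ J)).card ≤ _ := Finset.card_le_card h2
      _ ≤ _ := Finset.card_image_le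
      _ = F.card ^ (2 * k) := by simp
  rw [Nat.card_Ico] at h1
  have h3 : 2 ^ J ≤ (cnt A J) ^ (2 * k) + n0 := by omega
  have h4 : (2 : ℝ) ^ J ≤ (cnt A J : ℝ) ^ (2 * k) + n0 := by exact_mod_cast h3
  linarith

theorem main (hSZ : S_SIZE) (hDY : S_DY) : Pool.Agent.Helper12.ET.S_FIN := by
  classical
  intro k A hk hbasis m g B hAB hB
  obtain ⟨n0, hn0⟩ := hbasis
  obtain ⟨C1, hC1, hsz⟩ := hSZ g k hk
  obtain ⟨C2, hC2, hdy⟩ := hDY g k hk
  have h2k : 1 ≤ 2 * k := by omega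
  -- the upper bound of the counting function
  set M : ℝ := (m : ℝ) ^ (2 * k) * (m * C1) with hM
  have hM0 : 0 ≤ M := by positivity
  have hup : ∀ J : ℕ, (cnt A J : ℝ) ^ (2 * k) ≤ M * 2 ^ J := by
    intro J
    have h1 : (cnt A J : ℝ) ≤ ∑ i : Fin m, ((B i ∩ (Finset.range (2 ^ J) : Set ℕ)).ncard : ℝ) := by
      have := ncard_le_sum A B hAB (Finset.range (2 ^ J))
      unfold cnt
      exact_mod_cast this
    have h2 : ∀ i : Fin m, ((B i ∩ (Finset.range (2 ^ J) : Set ℕ)).ncard : ℝ) ^ (2 * k) ≤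
        C1 * 2 ^ J := by
      intro i
      rw [ncard_inter]
      have h3 := hsz ((Finset.range (2 ^ J)).filter (· ∈ B i)) (2 ^ J) Nat.one_le_two_pow
        (few_mono (fun x hx => (Finset.mem_filter.1 (Finset.mem_coe.1 hx)).2) (hB i))
        (fun a ha => Finset.mem_range.1 (Finset.mem_filter.1 ha).1)
      simpa using h3
    calc (cnt A J : ℝ) ^ (2 * k) ≤
        (∑ i : Fin m, ((B i ∩ (Finset.range (2 ^ J) : Set ℕ)).ncard : ℝ)) ^ (2 * k) :=
          pow_le_pow_left₀ (by positivity) h1 _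
      _ ≤ ((Finset.univ : Finset (Fin m)).card : ℝ) ^ (2 * k) *
          ∑ i : Fin m, ((B i ∩ (Finset.range (2 ^ J) : Set ℕ)).ncard : ℝ) ^ (2 * k) :=
          pm _ _ (fun i _ => by positivity) _ h2k
      _ ≤ (m : ℝ) ^ (2 * k) * (m * (C1 * 2 ^ J)) := by
          rw [Finset.card_univ, Fintype.card_fin]
          refine mul_le_mul_of_nonneg_left ?_ (by positivity)
          calc _ ≤ ∑ _i : Fin m, C1 * 2 ^ J := Finset.sum_le_sum fun i _ => h2 i
            _ = m * (C1 * 2 ^ J) := by simp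
      _ = M * 2 ^ J := by rw [hM]; ring
  -- the windows
  obtain ⟨N, hN⟩ := pow_unbounded_of_one_lt ((4 : ℝ) ^ k * M) (by norm_num : (1 : ℝ) < 2)
  set q : ℕ := N + 3 with hq
  set δ : ℝ := 1 / (8 * 4 ^ k * (q : ℝ) ^ (2 * k)) with hδ
  have hq0 : (0 : ℝ) < q := by rw [hq]; positivity
  have hδ0 : 0 < δ := by positivity
  set f : ℕ → ℝ := fun j => (nb A j : ℝ) ^ (2 * k) / 2 ^ j with hf
  have hf0 : ∀ j, 0 ≤ f j := fun j => by positivity
  have hwin : ∀ J : ℕ, n0 ≤ J → δ ≤ ∑ j ∈ Finset.Ico J (J + q), f j := by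
    intro J hJ
    by_contra hlt
    push Not at hlt
    have h1 := cnt_low hn0 (J + q)
    have h2 := cnt_add A J q
    set S := ∑ j ∈ Finset.Ico J (J + q), (nb A j : ℝ) with hS
    have hS0 : 0 ≤ S := Finset.sum_nonneg fun j _ => by positivity
    have h3 : (cnt A (J + q) : ℝ) ^ (2 * k) ≤ 4 ^ k * ((cnt A J : ℝ) ^ (2 * k) + S ^ (2 * k)) := by
      have h4 := pm (Finset.univ : Finset (Fin 2)) ![(cnt A J : ℝ), S] (by
        intro i _
        fin_cases i
        · simp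
        · exact hS0) (2 * k) h2k
      simp only [Fin.sum_univ_two, Matrix.cons_val_zero, Matrix.cons_val_one,
        Finset.card_univ, Fintype.card_fin] at h4
      refine le_trans (pow_le_pow_left₀ (by positivity) h2 _) (le_trans h4 (le_of_eq ?_))
      rw [pow_mul]
      norm_num
    have h5 : S ^ (2 * k) ≤ (q : ℝ) ^ (2 * k) * (2 ^ (J + q) * δ) := by
      have h6 := pm (Finset.Ico J (J + q)) (fun j => (nb A j : ℝ)) (fun j _ => by positivity)
        (2 * k) h2k
      rw [Nat.card_Ico, Nat.add_sub_cancel_left] at h6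
      refine le_trans h6 (mul_le_mul_of_nonneg_left ?_ (by positivity))
      calc ∑ j ∈ Finset.Ico J (J + q), (nb A j : ℝ) ^ (2 * k) ≤
          ∑ j ∈ Finset.Ico J (J + q), 2 ^ (J + q) * f j := by
            refine Finset.sum_le_sum fun j hj => ?_
            have h7 : (2 : ℝ) ^ j ≤ 2 ^ (J + q) :=
              pow_le_pow_right₀ (by norm_num) (Finset.mem_Ico.1 hj).2.le
            have h8 : (nb A j : ℝ) ^ (2 * k) = 2 ^ j * f j := by
              rw [hf]
              field_simp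
            rw [h8]
            exact mul_le_mul_of_nonneg_right h7 (hf0 j)
        _ = 2 ^ (J + q) * ∑ j ∈ Finset.Ico J (J + q), f j := by rw [Finset.mul_sum]
        _ ≤ 2 ^ (J + q) * δ := mul_le_mul_of_nonneg_left hlt.le (by positivity)
    have h9 := hup J
    have h10 : (n0 : ℝ) ≤ 2 ^ J := by
      have : n0 < 2 ^ J := lt_of_le_of_lt hJ (Nat.lt_two_pow_self)
      exact_mod_cast this.le
    have hpow : (2 : ℝ) ^ (J + q) = 8 * 2 ^ J * 2 ^ N := by
      rw [hq, pow_add, pow_add]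
      ring
    have h11 : (4 : ℝ) ^ k * ((q : ℝ) ^ (2 * k) * (2 ^ (J + q) * δ)) = 2 ^ J * 2 ^ N := by
      rw [hδ, hpow]
      field_simp
    have h12 : (4 : ℝ) ^ k * (M * 2 ^ J) ≤ 2 ^ J * 2 ^ N := by
      have : (4 : ℝ) ^ k * (M * 2 ^ J) = 2 ^ J * (4 ^ k * M) := by ring
      rw [this]
      exact mul_le_mul_of_nonneg_left hN.le (by positivity)
    have h13 : (4 : ℝ) ^ k * ((cnt A J : ℝ) ^ (2 * k) + S ^ (2 * k)) ≤
        4 ^ k * (M * 2 ^ J) + 4 ^ k * ((q : ℝ) ^ (2 * k) * (2 ^ (J + q) * δ)) := by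
      rw [← mul_add]
      exact mul_le_mul_of_nonneg_left (add_le_add h9 h5) (by positivity)
    have h14 : (1 : ℝ) ≤ 2 ^ N := one_le_pow₀ (by norm_num)
    have h15 : (0 : ℝ) < 2 ^ J := by positivity
    rw [hpow] at h1
    nlinarith [mul_le_mul_of_nonneg_left h14 h15.le]
  -- many windows
  have hmany : ∀ t : ℕ, n0 ≤ q * t → ∀ n : ℕ,
      δ * n ≤ ∑ j ∈ Finset.Ico (q * t) (q * t + q * n), f j := by
    intro t ht n
    induction n with
    | zero => simp
    | succ n ih =>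
      have e1 : q * t + q * (n + 1) = (q * t + q * n) + q := by ring
      rw [e1, ← Finset.sum_Ico_consecutive f (Nat.le_add_right (q * t) (q * n))
        (Nat.le_add_right _ q)]
      have h1 := hwin (q * t + q * n) (le_trans ht (Nat.le_add_right _ _))
      push_cast
      linarith
  -- the upper bound
  have hupper : ∀ J : ℕ, ∑ j ∈ Finset.Ico J (2 * J), f j ≤ (m : ℝ) ^ (2 * k) * (m * C2) := by
    intro J
    have h1 : ∀ j, f j ≤ (m : ℝ) ^ (2 * k) * ∑ i : Fin m, (nb (B i) j : ℝ) ^ (2 * k) / 2 ^ j := by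
      intro j
      have h2 : (nb A j : ℝ) ≤ ∑ i : Fin m, (nb (B i) j : ℝ) := by
        have h3 := ncard_le_sum A B hAB (Finset.Ico (2 ^ j) (2 ^ (j + 1)))
        rw [Finset.coe_Ico] at h3
        unfold nb
        exact_mod_cast h3
      have h4 : (nb A j : ℝ) ^ (2 * k) ≤
          (m : ℝ) ^ (2 * k) * ∑ i : Fin m, (nb (B i) j : ℝ) ^ (2 * k) := by
        refine le_trans (pow_le_pow_left₀ (by positivity) h2 _) ?_
        have h5 := pm (Finset.univ : Finset (Fin m)) (fun i => (nb (B i) j : ℝ))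
          (fun i _ => by positivity) (2 * k) h2k
        rw [Finset.card_univ, Fintype.card_fin] at h5
        exact h5
      rw [hf, ← Finset.sum_div, ← mul_div_assoc]
      exact div_le_div_of_nonneg_right h4 (by positivity)
    calc ∑ j ∈ Finset.Ico J (2 * J), f j ≤ ∑ j ∈ Finset.Ico J (2 * J),
        (m : ℝ) ^ (2 * k) * ∑ i : Fin m, (nb (B i) j : ℝ) ^ (2 * k) / 2 ^ j :=
          Finset.sum_le_sum fun j _ => h1 j
      _ = (m : ℝ) ^ (2 * k) * ∑ i : Fin m, ∑ j ∈ Finset.Ico J (2 * J),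
          (nb (B i) j : ℝ) ^ (2 * k) / 2 ^ j := by
          rw [← Finset.mul_sum, Finset.sum_comm]
      _ ≤ (m : ℝ) ^ (2 * k) * (m * C2) := by
          refine mul_le_mul_of_nonneg_left ?_ (by positivity)
          calc _ ≤ ∑ _i : Fin m, C2 := Finset.sum_le_sum fun i _ => hdy (B i) (hB i) J
            _ = m * C2 := by simp
  -- contradiction
  obtain ⟨t, ht⟩ := exists_nat_gt (((m : ℝ) ^ (2 * k) * (m * C2)) / δ)
  set T := max t n0 with hT
  have h1 : n0 ≤ q * T := by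
    have h2 : n0 ≤ T := le_max_right _ _
    have h3 : 1 ≤ q := by omega
    nlinarith
  have h4 := hmany T h1 T
  have h5 := hupper (q * T)
  rw [two_mul] at h5
  have h6 : (t : ℝ) ≤ T := by exact_mod_cast le_max_left t n0
  rw [div_lt_iff₀ hδ0] at ht
  nlinarith

end Pool.Agent.Helper81.ET.FIN
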